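import Pool.Agent.Helper70.TW.Goals

/-!
# TW-TPMA: the twisted Tsen-Lang property passes to algebraic extensions
-/

namespace Pool.Agent.Helper51.TW

open MvPolynomial Pool.Agent.Helper70.BU Pool.Agent.Helper70.TW

universe u

theorem bn_prod {ι κ : Type} [Fintype ι] [DecidableEq ι] [DecidableEq κ] (b : ι → κ) (e : ℕ)
    (k : κ) : bn (fun x : ι × Fin e => b x.1) k = bn b k * e := by
  unfold bn
  have h : (Finset.univ.filter (fun x : ι × Fin e => b x.1 = k)) =
      (Finset.univ.filter (fun i : ι => b i = k)) ×ˢ (Finset.univ : Finset (Fin e)) := by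
    ext x
    simp
  first
    | rw [h, Finset.card_product, Finset.card_univ, Fintype.card_fin]
    | simp [h, Finset.card_product]

theorem tpma (hA : ALGS.{u}) : TPMA.{u} := by
  intro F K _ _ _ _ j hF ι κ Λ _ _ _ _ _ b α β hne hlt
  apply hA F K ι κ Λ b α β
  intro e he
  apply hF (ι × Fin e) κ (Σ _ : Λ, Fin e) (fun x : ι × Fin e => b x.1)
    (fun l : (Σ _ : Λ, Fin e) => α l.1) (fun l => β l.1) (fun l => hne l.1)
  intro k
  rw [bn_prod]
  have h : ∑ l : (Σ _ : Λ, Fin e), (∑ k', (α l.1 k' + β l.1 k')) ^ j =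
      (∑ l : Λ, (∑ k', (α l k' + β l k')) ^ j) * e := by
    rw [Fintype.sum_sigma]
    simp only [Finset.sum_const, Finset.card_univ, Fintype.card_fin, smul_eq_mul]
    rw [Finset.sum_mul]
    exact Finset.sum_congr rfl fun l _ => Nat.mul_comm _ _
  rw [h]
  exact Nat.mul_lt_mul_of_pos_right (hlt k) he

end Pool.Agent.Helper51.TW
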